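import Pool.Agent.H24.CL.Targets

/-!
The critical Vinogradov mean value (`MP_e21eee_nt`), row SE: one step of the recursion for lengths
divisible by `q^m`.
-/

set_option autoImplicit false

open Finset MeasureTheory

namespace Pool.Agent.H7.CLV

open Pool.Agent.H24.CL

namespace SE

theorem rpow_large (A s : ℝ) (hs : 0 < s) : ∃ q₀ : ℕ, ∀ q : ℕ, q₀ ≤ q → A ≤ (q : ℝ) ^ s := by
  have h := (tendsto_rpow_atTop hs).comp (tendsto_natCast_atTop_atTop (R := ℝ))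
  obtain ⟨q₀, h₀⟩ := Filter.eventually_atTop.1 (h.eventually_ge_atTop A)
  exact ⟨q₀, fun q hq => h₀ q hq⟩

theorem integ {g : X 3 → ℝ} (hg : Continuous g) : Integrable g :=
  hg.integrable_of_hasCompactSupport (HasCompactSupport.of_compactSpace _)

theorem cont_F (huc : ∀ (k N : ℕ), Continuous (u N : X k → ℂ)) (N : ℕ) (M : ℝ) :
    Continuous fun a : X 3 => M * ‖u N a‖ ^ 2 :=
  continuous_const.mul ((huc 3 N).norm.pow 2)

theorem meas_ge (huc : ∀ (k N : ℕ), Continuous (u N : X k → ℂ)) (N : ℕ) (M h : ℝ) :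
    MeasurableSet {a : X 3 | h ≤ M * ‖u N a‖ ^ 2} :=
  (isClosed_le continuous_const (cont_F huc N M)).measurableSet

/-- power of the depth -/
theorem pow_theta (q D η x : ℝ) (hq : 1 ≤ q) (hD : 0 < D) (hη : 0 ≤ η) (hη1 : η ≤ 1)
    (hx0 : 0 ≤ x) (hx : x ≤ 2 * q ^ (D + 2)) : x ^ (η / (D + 2)) ≤ 2 * q ^ η := by
  have hD2 : 0 < D + 2 := by linarith
  have hq0 : 0 < q := lt_of_lt_of_le one_pos hq
  have hθ : η / (D + 2) ≤ 1 := (div_le_one hD2).2 (by linarith)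
  calc x ^ (η / (D + 2)) ≤ (2 * q ^ (D + 2)) ^ (η / (D + 2)) :=
        Real.rpow_le_rpow hx0 hx (div_nonneg hη hD2.le)
    _ = 2 ^ (η / (D + 2)) * (q ^ (D + 2)) ^ (η / (D + 2)) :=
        Real.mul_rpow (by norm_num) (Real.rpow_nonneg hq0.le _)
    _ = 2 ^ (η / (D + 2)) * q ^ η := by
        rw [← Real.rpow_mul hq0.le, mul_div_cancel₀ _ hD2.ne']
    _ ≤ 2 * q ^ η := by
        refine mul_le_mul_of_nonneg_right ?_ (Real.rpow_nonneg hq0.le _)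
        calc (2 : ℝ) ^ (η / (D + 2)) ≤ 2 ^ (1 : ℝ) :=
              Real.rpow_le_rpow_of_exponent_le (by norm_num) hθ
          _ = 2 := Real.rpow_one 2

/-- splitting of the integral -/
theorem split (huc : ∀ (k N : ℕ), Continuous (u N : X k → ℂ)) (N : ℕ) (M : ℝ) (hM : 0 ≤ M)
    (Gd E : Set (X 3)) (hGd : MeasurableSet Gd) (hE : MeasurableSet E) (h : ℝ) (hh : 0 < h)
    (hcov : ∀ a, 1 / 2 ≤ M * ‖u N a‖ ^ 2 → a ∉ Gd → a ∈ E) :
    ∫ a : X 3, max (M * ‖u N a‖ ^ 2 - 1 / 2) 0 ≤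
      (∫ a in Gd, max (M * ‖u N a‖ ^ 2 - 1 / 2) 0) +
      (h * volume.real E + ∫ a in {a : X 3 | h ≤ M * ‖u N a‖ ^ 2}, M * ‖u N a‖ ^ 2) := by
  have hF := cont_F huc N M
  have hG : Continuous fun a : X 3 => max (M * ‖u N a‖ ^ 2 - 1 / 2) 0 :=
    (hF.sub continuous_const).max continuous_const
  have hmF := meas_ge huc N M h
  rw [← integral_add_compl hGd (integ hG)]
  refine add_le_add le_rfl ?_
  have hi1 : Integrable (E.indicator fun _ : X 3 => h) := (integrable_const h).indicator hE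
  have hi2 : Integrable ({a : X 3 | h ≤ M * ‖u N a‖ ^ 2}.indicator
      fun a => M * ‖u N a‖ ^ 2) := (integ hF).indicator hmF
  have e1 : h * volume.real E + ∫ a in {a : X 3 | h ≤ M * ‖u N a‖ ^ 2}, M * ‖u N a‖ ^ 2 =
      ∫ a : X 3, (E.indicator (fun _ : X 3 => h) a + {a : X 3 | h ≤ M * ‖u N a‖ ^ 2}.indicator
        (fun a => M * ‖u N a‖ ^ 2) a) := by
    rw [integral_add hi1 hi2, integral_indicator hE, integral_indicator hmF, setIntegral_const,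
      smul_eq_mul, mul_comm]
  rw [e1, ← integral_indicator hGd.compl]
  refine integral_mono ((integ hG).indicator hGd.compl) (hi1.add hi2) fun a => ?_
  have hFa : 0 ≤ M * ‖u N a‖ ^ 2 := mul_nonneg hM (by positivity)
  have h1 : 0 ≤ E.indicator (fun _ : X 3 => h) a := Set.indicator_nonneg (fun _ _ => hh.le) a
  have h2 : 0 ≤ {a : X 3 | h ≤ M * ‖u N a‖ ^ 2}.indicator (fun a => M * ‖u N a‖ ^ 2) a :=
    Set.indicator_nonneg (fun b _ => mul_nonneg hM (by positivity)) a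
  change Gdᶜ.indicator (fun a => max (M * ‖u N a‖ ^ 2 - 1 / 2) 0) a ≤
    E.indicator (fun _ : X 3 => h) a + {a : X 3 | h ≤ M * ‖u N a‖ ^ 2}.indicator
        (fun a => M * ‖u N a‖ ^ 2) a
  by_cases ha : a ∈ Gd
  · have hn : a ∉ Gdᶜ := fun h' => h' ha
    rw [Set.indicator_of_notMem hn]
    exact add_nonneg h1 h2
  · rw [Set.indicator_of_mem (show a ∈ Gdᶜ from ha)]
    by_cases hs : 1 / 2 ≤ M * ‖u N a‖ ^ 2
    · rw [Set.indicator_of_mem (hcov a hs ha)]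
      by_cases hb : h ≤ M * ‖u N a‖ ^ 2
      · rw [Set.indicator_of_mem (show a ∈ {a : X 3 | h ≤ M * ‖u N a‖ ^ 2} from hb)]
        refine max_le (by linarith) (by linarith)
      · have hn : a ∉ {a : X 3 | h ≤ M * ‖u N a‖ ^ 2} := hb
        rw [Set.indicator_of_notMem hn]
        push Not at hb
        refine max_le (by linarith) (by linarith)
    · push Not at hs
      rw [max_eq_right (by linarith)]
      exact add_nonneg h1 h2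

/-- the recursion on the good part -/
theorem good (huc : ∀ (k N : ℕ), Continuous (u N : X k → ℂ)) (L : ℕ) (M del : ℝ) (hM : 0 ≤ M)
    (hd0 : 0 ≤ del) (hd1 : del ≤ 1) :
    ∫ a : X 3, max ((1 + del) * M * ‖u L a‖ ^ 2 - 1 / 2) 0 ≤
      (∫ a : X 3, max (M * ‖u L a‖ ^ 2 - 1 / 2) 0) +
        del * ∫ a in {a : X 3 | 1 / 4 ≤ M * ‖u L a‖ ^ 2}, M * ‖u L a‖ ^ 2 := by
  have hF := cont_F huc L M
  have hG : Continuous fun a : X 3 => max (M * ‖u L a‖ ^ 2 - 1 / 2) 0 :=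
    (hF.sub continuous_const).max continuous_const
  have hG' : Continuous fun a : X 3 => max ((1 + del) * M * ‖u L a‖ ^ 2 - 1 / 2) 0 :=
    ((continuous_const.mul ((huc 3 L).norm.pow 2)).sub continuous_const).max continuous_const
  have hmF := meas_ge huc L M (1 / 4)
  have hi2 : Integrable ({a : X 3 | 1 / 4 ≤ M * ‖u L a‖ ^ 2}.indicator
      fun a => M * ‖u L a‖ ^ 2) := (integ hF).indicator hmF
  have e1 : (∫ a : X 3, max (M * ‖u L a‖ ^ 2 - 1 / 2) 0) +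
      del * (∫ a in {a : X 3 | 1 / 4 ≤ M * ‖u L a‖ ^ 2}, M * ‖u L a‖ ^ 2) =
      ∫ a : X 3, (max (M * ‖u L a‖ ^ 2 - 1 / 2) 0 + del *
        {a : X 3 | 1 / 4 ≤ M * ‖u L a‖ ^ 2}.indicator (fun a => M * ‖u L a‖ ^ 2) a) := by
    rw [← integral_indicator hmF, ← integral_const_mul,
      ← integral_add (integ hG) (hi2.const_mul del)]
  rw [e1]
  refine integral_mono (integ hG') ((integ hG).add (hi2.const_mul del)) fun a => ?_
  change max ((1 + del) * M * ‖u L a‖ ^ 2 - 1 / 2) 0 ≤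
    max (M * ‖u L a‖ ^ 2 - 1 / 2) 0 + del *
        {a : X 3 | 1 / 4 ≤ M * ‖u L a‖ ^ 2}.indicator (fun a => M * ‖u L a‖ ^ 2) a
  have hFa : 0 ≤ M * ‖u L a‖ ^ 2 := mul_nonneg hM (by positivity)
  have e2 : (1 + del) * M * ‖u L a‖ ^ 2 = M * ‖u L a‖ ^ 2 + del * (M * ‖u L a‖ ^ 2) := by ring
  rw [e2]
  have hb0 : 0 ≤ max (M * ‖u L a‖ ^ 2 - 1 / 2) 0 := le_max_right _ _
  have hb1 : M * ‖u L a‖ ^ 2 - 1 / 2 ≤ max (M * ‖u L a‖ ^ 2 - 1 / 2) 0 := le_max_left _ _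
  by_cases hb : 1 / 4 ≤ M * ‖u L a‖ ^ 2
  · rw [Set.indicator_of_mem (show a ∈ {a : X 3 | 1 / 4 ≤ M * ‖u L a‖ ^ 2} from hb)]
    have h3 : 0 ≤ del * (M * ‖u L a‖ ^ 2) := mul_nonneg hd0 hFa
    exact max_le (by linarith) (by linarith)
  · have hn : a ∉ {a : X 3 | 1 / 4 ≤ M * ‖u L a‖ ^ 2} := hb
    rw [Set.indicator_of_notMem hn]
    push Not at hb
    have h3 : del * (M * ‖u L a‖ ^ 2) ≤ 1 * (M * ‖u L a‖ ^ 2) :=
      mul_le_mul_of_nonneg_right hd1 hFa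
    rw [mul_zero, add_zero]
    exact max_le (by linarith) hb0

/-- counting in a union -/
theorem cnt_union {ι : Type} (s : Finset ι) (S : AddSubgroup (X 3)) (W : ι → Set (X 3))
    (Gd : Set (X 3)) (B : ℝ) (h : ∀ c ∈ s, Cnt S (W c) B) (hG : Gd ⊆ ⋃ c ∈ s, W c) :
    Cnt S Gd (s.card * B) := by
  classical
  intro Y hY hS
  have h1 : Y ⊆ s.biUnion fun c => Y.filter fun y => y ∈ W c := by
    intro y hy
    have h2 := hG (hY y hy)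
    simp only [Set.mem_iUnion] at h2
    obtain ⟨c, hc, h3⟩ := h2
    exact Finset.mem_biUnion.2 ⟨c, hc, Finset.mem_filter.2 ⟨hy, h3⟩⟩
  calc (Y.card : ℝ) ≤ ((s.biUnion fun c => Y.filter fun y => y ∈ W c).card : ℝ) := by
        exact_mod_cast Finset.card_le_card h1
    _ ≤ ∑ c ∈ s, ((Y.filter fun y => y ∈ W c).card : ℝ) := by
        exact_mod_cast Finset.card_biUnion_le
    _ ≤ ∑ _c ∈ s, B := by
        refine Finset.sum_le_sum fun c hc => ?_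
        refine h c hc _ (fun y hy => (Finset.mem_filter.1 hy).2) fun y hy y' hy' => ?_
        exact hS y (Finset.mem_filter.1 hy).1 y' (Finset.mem_filter.1 hy').1
    _ = s.card * B := by rw [Finset.sum_const, nsmul_eq_mul]

/-- one step for a fixed number `m` of levels -/
theorem step (hTY : T_TY) (hTP : T_TP) (hBD : T_BD) (hGC : T_GC) (hGO : T_GO) (hTA : T_TA)
    (hTR : T_TR) (hEX : T_EX) (hMP : T_MP) : ∃ (δ D₀ : ℝ), 0 < δ ∧ ∀ D : ℝ, D₀ ≤ D → ∀ m : ℕ,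
    4 ≤ m → (m : ℝ) ≤ 10 * D → ∃ q₀ : ℕ, ∀ (q L : ℕ) (M : ℝ), q₀ ≤ q → q.Prime →
    1 ≤ L → 1 ≤ M → (8 * D + 8 ≤ m ∨ L ≤ q ^ 2) →
    (q : ℝ) ^ (D - 1) ≤ ((q : ℝ) ^ m * L) / (2 * M) →
    ((q : ℝ) ^ m * L) / (2 * M) ≤ (q : ℝ) ^ (D + 1) →
    SM 3 M (q ^ m * L) ≤ SM 3 M (q ^ (m - 1) * L) + (q : ℝ) ^ (-δ) := by
  classical
  obtain ⟨-, -, -, -, -, -, -, huc, hu1⟩ := hEX
  obtain ⟨δ₁, D₁, hδ₁, hBD'⟩ := hBD (1 / 1000) (by norm_num) (by norm_num)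
  obtain ⟨CG, qG, hCG, hGO'⟩ := hGO 3 le_rfl
  obtain ⟨d, hd0, hdδ, hd1⟩ : ∃ d : ℝ, 0 < d ∧ d ≤ δ₁ ∧ d ≤ 1 :=
    ⟨min δ₁ 1, lt_min hδ₁ one_pos, min_le_left _ _, min_le_right _ _⟩
  obtain ⟨δ, hδ0, hδd, hδ48⟩ : ∃ δ : ℝ, 0 < δ ∧ 2 * δ ≤ d / 2 ∧ 2 * δ ≤ 1 / 48 := by
    refine ⟨min (d / 2) (1 / 48) / 2, ?_, ?_, ?_⟩
    · have := lt_min (half_pos hd0) (by norm_num : (0 : ℝ) < 1 / 48)
      linarith
    · linarith [min_le_left (d / 2) (1 / 48 : ℝ)]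
    · linarith [min_le_right (d / 2) (1 / 48 : ℝ)]
  refine ⟨δ, max D₁ 1, hδ0, fun D hD m hm4 hmD => ?_⟩
  have hD1 : D₁ ≤ D := (le_max_left _ _).trans hD
  have hD2 : 1 ≤ D := (le_max_right _ _).trans hD
  obtain ⟨ε₀, hε₀, hBDD⟩ := hBD' D hD1
  obtain ⟨ε, hε, hεε, hε1⟩ : ∃ ε : ℝ, 0 < ε ∧ ε ≤ ε₀ ∧ ε ≤ 1 / 1000 :=
    ⟨min ε₀ (1 / 1000), lt_min hε₀ (by norm_num), min_le_left _ _, min_le_right _ _⟩
  obtain ⟨TT, T, hT1, hTY'⟩ := hTY 3 m ε (by norm_num) hε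
  obtain ⟨qB, hB⟩ := hBDD ε T m hε hεε hT1 hmD
  obtain ⟨qC, hC⟩ := hGC (1 / 1000) ε T m (by norm_num) (by norm_num) hε hε1 hT1 (by omega)
  obtain ⟨qP, hP⟩ := hTP 3 m D le_rfl (by omega)
  obtain ⟨η, hη0, hηd, hη1⟩ : ∃ η : ℝ, 0 < η ∧ η ≤ d / 100 ∧ η ≤ 1 / 100 :=
    ⟨d / 100, by positivity, le_rfl, by linarith⟩
  obtain ⟨θ, hθ⟩ : ∃ θ : ℝ, θ = η / (D + 2) := ⟨_, rfl⟩
  have hθ0 : 0 < θ := by rw [hθ]; positivity
  have hθ1 : θ ≤ 1 := by rw [hθ, div_le_one (by linarith)]; linarith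
  obtain ⟨CA, hCA1, hA⟩ := hTA 3 θ le_rfl hθ0 hθ1
  obtain ⟨CR, hCR1, hR⟩ := hTR 3 θ le_rfl hθ0 hθ1
  obtain ⟨q1, hq1⟩ := rpow_large CG (1 / 24) (by norm_num)
  obtain ⟨q2, hq2⟩ := rpow_large TT (1 / 24 - 30 / 1000) (by norm_num)
  obtain ⟨q3, hq3⟩ := rpow_large ((64 + 64 * TT + 2 * CA) + 2 * CR + CG * CR * 2048) δ hδ0
  refine ⟨qG + qB + qC + qP + q1 + q2 + q3, fun q L M hq hqp hL hM hor hlo hhi => ?_⟩
  have hqr : (2 : ℝ) ≤ q := by exact_mod_cast hqp.two_le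
  have hq0 : (0 : ℝ) < q := by linarith
  have hq1' : (1 : ℝ) ≤ q := by linarith
  have hM0 : 0 < M := by linarith
  have hLr : (0 : ℝ) < L := by exact_mod_cast hL
  -- the lengths
  obtain ⟨L1, hL1⟩ : ∃ L1 : ℕ, L1 = q ^ (m - 1) * L := ⟨_, rfl⟩
  have hNL : q ^ m * L = q * L1 := by rw [hL1, ← mul_assoc, mul_pow_sub_one (by omega)]
  have hNc : (q : ℝ) ^ m * L = q * (L1 : ℝ) := by exact_mod_cast hNL
  have hL11 : 1 ≤ L1 := by
    rw [hL1]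
    exact Nat.one_le_iff_ne_zero.2 (mul_ne_zero (pow_ne_zero _ hqp.ne_zero) (by omega))
  have hL1r : (0 : ℝ) < L1 := by exact_mod_cast hL11
  obtain ⟨z, hz⟩ : ∃ z : ℝ, z = (L1 : ℝ) / M := ⟨_, rfl⟩
  have hz0 : 0 < z := by rw [hz]; positivity
  have hy : q * z ≤ 2 * (q : ℝ) ^ (D + 1) := by
    have h1 : (q : ℝ) ^ m * L / (2 * M) = q * z / 2 := by
      rw [hNc, hz]
      field_simp
    rw [h1] at hhi
    linarith
  have hKN : KN 3 = 6 := rfl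
  have hpm : (q : ℝ) ^ (D + 1) ≤ (q : ℝ) ^ (D + 2) :=
    Real.rpow_le_rpow_of_exponent_le hq1' (by linarith)
  have hzq : z ≤ q * z := le_mul_of_one_le_left hz0.le hq1'
  -- the threshold
  obtain ⟨t₀, ht₀⟩ : ∃ t₀ : ℝ, t₀ = Real.sqrt (1 / (2 * M)) := ⟨_, rfl⟩
  have ht0 : 0 < t₀ := by rw [ht₀]; positivity
  have ht2 : t₀ ^ 2 = 1 / (2 * M) := by rw [ht₀]; exact Real.sq_sqrt (by positivity)
  have ht12 : t₀ ^ 12 = 1 / (64 * M ^ 6) := by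
    calc t₀ ^ 12 = (t₀ ^ 2) ^ 6 := by ring
      _ = 1 / (64 * M ^ 6) := by rw [ht2, div_pow, mul_pow]; norm_num
  have hNt : ((q : ℝ) ^ m * L) * t₀ ^ 2 = ((q : ℝ) ^ m * L) / (2 * M) := by rw [ht2]; ring
  have hconv : ∀ v : ℝ, (q * z) ^ 6 * v = 64 * (((q : ℝ) ^ m * L) ^ 6 * t₀ ^ 12 * v) := by
    intro v
    rw [hNc, ht12, hz]
    field_simp
  obtain ⟨W, A, n, hch, hcov⟩ := hTY' q L t₀ hqp.two_le hL ht0
  -- the good classes and the good points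
  obtain ⟨gd, hgd⟩ : ∃ gd : Finset (Fin TT), ∀ c, c ∈ gd ↔
      ∀ l < 3, Gr q T ((q : ℝ) ^ ε) (A c) (n c) l ≤ (q : ℝ) ^ (1 / 1000 : ℝ) :=
    ⟨univ.filter fun c => ∀ l < 3, Gr q T ((q : ℝ) ^ ε) (A c) (n c) l ≤ (q : ℝ) ^ (1 / 1000 : ℝ),
      fun c => by simp⟩
  obtain ⟨Gd, hGd⟩ : ∃ Gd : Set (X 3), Gd = {a : X 3 | 1 / 2 ≤ M * ‖u (q * L1) a‖ ^ 2} ∩
      (⋃ c ∈ gd, W c 0) ∩ {a | ∀ b < q, M * ‖u L1 (phi q b a)‖ ^ 2 ≤ (q : ℝ) ^ (3 / 2 : ℝ)} :=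
    ⟨_, rfl⟩
  have hGdm : MeasurableSet Gd := by
    rw [hGd]
    refine ((meas_ge huc (q * L1) M (1 / 2)).inter (Finset.measurableSet_biUnion gd fun c _ =>
      (hch c).meas 0 (Nat.zero_le _))).inter ?_
    have e1 : {a : X 3 | ∀ b < q, M * ‖u L1 (phi q b a)‖ ^ 2 ≤ (q : ℝ) ^ (3 / 2 : ℝ)} =
        ⋂ b ∈ Finset.range q, {a : X 3 | M * ‖u L1 (phi q b a)‖ ^ 2 ≤ (q : ℝ) ^ (3 / 2 : ℝ)} := by
      ext a
      simp only [Set.mem_ofPred_eq, Set.mem_iInter, Finset.mem_range]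
    rw [e1]
    refine Finset.measurableSet_biInter _ fun b _ => ?_
    have h1 : Continuous fun a : X 3 => M * ‖u L1 (phi q b a)‖ ^ 2 :=
      (cont_F huc L1 M).comp (hMP 3 q b hqp.one_le).1
    exact (isClosed_le h1 continuous_const).measurableSet
  have hcnt : Cnt (H 3 q 3) Gd ((q : ℝ) ^ (1 / 24 : ℝ)) := by
    have h1 : Cnt (H 3 q 3) Gd (gd.card * (q : ℝ) ^ (30 * (1 / 1000) : ℝ)) := by
      refine cnt_union gd (H 3 q 3) (fun c => W c 0) Gd _ (fun c hc => ?_) ?_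
      · exact hC q L t₀ (W c) (A c) (n c) (by omega) hqp hL ht0 (hch c) ((hgd c).1 hc)
      · rw [hGd]
        exact fun a ha => ha.1.2
    intro Y hY hS
    refine (h1 Y hY hS).trans ?_
    have h2 : (gd.card : ℝ) ≤ TT := by
      have h3 : gd.card ≤ TT := by simpa using Finset.card_le_univ gd
      exact_mod_cast h3
    calc (gd.card : ℝ) * (q : ℝ) ^ (30 * (1 / 1000) : ℝ)
        ≤ (q : ℝ) ^ (1 / 24 - 30 / 1000 : ℝ) * (q : ℝ) ^ (30 * (1 / 1000) : ℝ) :=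
          mul_le_mul_of_nonneg_right (h2.trans (hq2 q (by omega))) (Real.rpow_nonneg hq0.le _)
      _ = (q : ℝ) ^ (1 / 24 : ℝ) := by
          rw [← Real.rpow_add hq0]
          norm_num
  -- the good part
  obtain ⟨del, hdel⟩ : ∃ del : ℝ, del = CG * (q : ℝ) ^ (-(1 / (8 * ((3 : ℕ) : ℝ)))) := ⟨_, rfl⟩
  have hs24 : (1 / (8 * ((3 : ℕ) : ℝ))) = 1 / 24 := by norm_num
  have hdel0 : 0 ≤ del := by rw [hdel]; exact mul_nonneg hCG (Real.rpow_nonneg hq0.le _)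
  have hdel1 : del ≤ 1 := by
    rw [hdel, hs24]
    calc CG * (q : ℝ) ^ (-(1 / 24) : ℝ) ≤ (q : ℝ) ^ (1 / 24 : ℝ) * (q : ℝ) ^ (-(1 / 24) : ℝ) :=
          mul_le_mul_of_nonneg_right (hq1 q (by omega)) (Real.rpow_nonneg hq0.le _)
      _ = 1 := by
          rw [← Real.rpow_add hq0]
          norm_num
  have hgood := hGO' q L1 M ((q : ℝ) ^ (1 / 24 : ℝ)) Gd (by omega) hqp hL11 hM0
    (Real.one_le_rpow hq1' (by norm_num)) (by rw [hs24]) hGdm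
    (fun a ha => by rw [hGd] at ha; exact ha.1.1)
    (fun a ha b hb => by rw [hGd] at ha; exact ha.2 b hb) hcnt
  rw [← hdel, hKN] at hgood
  have hgood2 := hgood.trans (good huc L1 M del hM0.le hdel0 hdel1)
  have hR1 := hR L1 M (1 / 4) hL11 hM0 (by norm_num)
  rw [hKN, ← hz] at hR1
  have hθz : z ^ θ ≤ 2 * (q : ℝ) ^ η := by
    rw [hθ]
    exact pow_theta q D η z hq1' (by linarith) hη0.le (by linarith) hz0.le (by linarith)
  have h4 : ((1 / 4 : ℝ)) ^ (-(((6 : ℕ) : ℝ) - 1 - θ)) ≤ 1024 := by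
    have e1 : ((1 / 4 : ℝ)) ^ (-(((6 : ℕ) : ℝ) - 1 - θ)) = 4 ^ (5 - θ) := by
      rw [Real.rpow_neg (by norm_num), one_div, Real.inv_rpow (by norm_num), inv_inv]
      norm_num
    rw [e1]
    calc (4 : ℝ) ^ (5 - θ) ≤ 4 ^ (5 : ℝ) :=
          Real.rpow_le_rpow_of_exponent_le (by norm_num) (by linarith)
      _ = 1024 := by
          rw [show (5 : ℝ) = ((5 : ℕ) : ℝ) by norm_num, Real.rpow_natCast]
          norm_num
  have hR1' : z ^ 6 * ∫ a in {a : X 3 | 1 / 4 ≤ M * ‖u L1 a‖ ^ 2}, M * ‖u L1 a‖ ^ 2 ≤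
      CR * 1024 * (2 * (q : ℝ) ^ η) := by
    refine hR1.trans ?_
    refine mul_le_mul (mul_le_mul_of_nonneg_left h4 (by linarith)) hθz
      (Real.rpow_nonneg hz0.le _) (by positivity)
  -- the bad part
  obtain ⟨E, hE⟩ : ∃ E : Set (X 3), E = {a : X 3 | 1 / 2 ≤ M * ‖u (q * L1) a‖ ^ 2} \ Gd :=
    ⟨_, rfl⟩
  have hEm : MeasurableSet E := by
    rw [hE]
    exact (meas_ge huc (q * L1) M (1 / 2)).diff hGdm
  obtain ⟨h, hh⟩ : ∃ h : ℝ, h = (q : ℝ) ^ (d / 4) := ⟨_, rfl⟩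
  have hh0 : 0 < h := by rw [hh]; positivity
  have hsplit := split huc (q * L1) M hM0.le Gd E hGdm hEm h hh0 (fun a h1 h2 => by
    rw [hE]; exact ⟨h1, h2⟩)
  have hR2 := hR (q * L1) M h (Nat.mul_pos hqp.pos hL11) hM0 hh0
  have hqL : (((q * L1 : ℕ) : ℝ)) / M = q * z := by
    rw [hz]
    push_cast
    ring
  rw [hKN, hqL] at hR2
  have hθy : (q * z) ^ θ ≤ 2 * (q : ℝ) ^ η := by
    rw [hθ]
    exact pow_theta q D η (q * z) hq1' (by linarith) hη0.le (by linarith) (by positivity)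
      (by linarith)
  have hhp : h ^ (-(((6 : ℕ) : ℝ) - 1 - θ)) ≤ (q : ℝ) ^ (-d) := by
    rw [hh, ← Real.rpow_mul hq0.le]
    refine Real.rpow_le_rpow_of_exponent_le hq1' ?_
    push_cast
    nlinarith
  have hR2' : (q * z) ^ 6 * ∫ a in {a : X 3 | h ≤ M * ‖u (q * L1) a‖ ^ 2},
      M * ‖u (q * L1) a‖ ^ 2 ≤ CR * (q : ℝ) ^ (-d) * (2 * (q : ℝ) ^ η) := by
    refine hR2.trans ?_
    refine mul_le_mul (mul_le_mul_of_nonneg_left hhp (by linarith)) hθy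
      (Real.rpow_nonneg (by positivity) _) (by positivity)
  -- the measure of the bad set
  obtain ⟨vH, hvH⟩ : ∃ vH : ℝ, vH = volume.real
      {v : X 3 | (q : ℝ) ^ (3 / 2 : ℝ) ≤ M * ‖u L1 v‖ ^ 2} := ⟨_, rfl⟩
  have hHb : ∀ b, volume.real ((phi q b : X 3 → X 3) ⁻¹'
      {v : X 3 | (q : ℝ) ^ (3 / 2 : ℝ) ≤ M * ‖u L1 v‖ ^ 2}) = vH := fun b => by
    rw [hvH]
    exact (hMP 3 q b hqp.one_le).2.2.measureReal_preimage (meas_ge huc L1 M _).nullMeasurableSet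
  have hEsub : E ⊆ (Etop 3 q m L (t₀ * (q : ℝ) ^ m) ∪ ⋃ c ∈ gdᶜ, W c 0) ∪
      ⋃ b ∈ Finset.range q, (phi q b : X 3 → X 3) ⁻¹'
        {v : X 3 | (q : ℝ) ^ (3 / 2 : ℝ) ≤ M * ‖u L1 v‖ ^ 2} := by
    intro a ha
    rw [hE] at ha
    obtain ⟨ha1, ha2⟩ := ha
    have ha4 : 1 / 2 ≤ M * ‖u (q * L1) a‖ ^ 2 := ha1
    have ha3 : t₀ ≤ ‖u (q ^ m * L) a‖ := by
      rw [hNL, ht₀]
      refine Real.sqrt_le_iff.2 ⟨norm_nonneg _, ?_⟩
      rw [div_le_iff₀ (by positivity)]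
      linarith
    rcases hcov ha3 with h1 | h1
    · obtain ⟨c, hc⟩ := Set.mem_iUnion.1 h1
      by_cases hcg : c ∈ gd
      · by_cases hb : ∀ b < q, M * ‖u L1 (phi q b a)‖ ^ 2 ≤ (q : ℝ) ^ (3 / 2 : ℝ)
        · refine absurd ?_ ha2
          rw [hGd]
          exact ⟨⟨ha1, Set.mem_iUnion₂.2 ⟨c, hcg, hc⟩⟩, hb⟩
        · push Not at hb
          obtain ⟨b, hb1, hb2⟩ := hb
          exact Or.inr (Set.mem_iUnion₂.2 ⟨b, Finset.mem_range.2 hb1, hb2.le⟩)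
      · exact Or.inl (Or.inr (Set.mem_iUnion₂.2 ⟨c, Finset.mem_compl.2 hcg, hc⟩))
    · exact Or.inl (Or.inl h1)
  have hEv : volume.real E ≤ (volume.real (Etop 3 q m L (t₀ * (q : ℝ) ^ m)) +
      ∑ c ∈ gdᶜ, volume.real (W c 0)) + q * vH := by
    refine (measureReal_mono hEsub).trans ((measureReal_union_le _ _).trans (add_le_add
      ((measureReal_union_le _ _).trans (add_le_add le_rfl
        (measureReal_biUnion_finset_le _ _))) ?_))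
    refine (measureReal_biUnion_finset_le _ _).trans ?_
    rw [Finset.sum_congr rfl fun b _ => hHb b, Finset.sum_const, Finset.card_range, nsmul_eq_mul]
  have hqd : (q : ℝ) ^ (-(1 : ℝ)) ≤ (q : ℝ) ^ (-d) :=
    Real.rpow_le_rpow_of_exponent_le hq1' (by linarith)
  have hE1 : (q * z) ^ 6 * volume.real (Etop 3 q m L (t₀ * (q : ℝ) ^ m)) ≤
      64 * (q : ℝ) ^ (-d) := by
    have h1 := hP q L t₀ (by omega) hL ht0 (by rw [hNt]; exact hhi)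
    rw [hKN, show 2 * 6 = 12 from rfl] at h1
    rw [hconv]
    refine mul_le_mul_of_nonneg_left (h1.trans ?_) (by norm_num)
    rwa [one_div, ← Real.rpow_neg_one]
  have hE2 : (q * z) ^ 6 * ∑ c ∈ gdᶜ, volume.real (W c 0) ≤ 64 * TT * (q : ℝ) ^ (-d) := by
    rw [Finset.mul_sum]
    calc ∑ c ∈ gdᶜ, (q * z) ^ 6 * volume.real (W c 0) ≤ ∑ _c ∈ gdᶜ, 64 * (q : ℝ) ^ (-d) := by
          refine Finset.sum_le_sum fun c hc => ?_
          have hc' : c ∉ gd := Finset.mem_compl.1 hc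
          rw [hgd] at hc'
          push Not at hc'
          obtain ⟨l, hl, hl'⟩ := hc'
          have h1 := hB q L t₀ (W c) (A c) (n c) (by omega) hqp hL ht0 (by rw [hNt]; exact hlo)
            (by rw [hNt]; exact hhi) hor (hch c) ⟨l, hl, hl'.le⟩
          rw [hconv]
          refine mul_le_mul_of_nonneg_left (h1.trans ?_) (by norm_num)
          exact Real.rpow_le_rpow_of_exponent_le hq1' (by linarith)
      _ = gdᶜ.card * (64 * (q : ℝ) ^ (-d)) := by rw [Finset.sum_const, nsmul_eq_mul]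
      _ ≤ TT * (64 * (q : ℝ) ^ (-d)) := by
          refine mul_le_mul_of_nonneg_right ?_ (by positivity)
          have h3 : gdᶜ.card ≤ TT := by simpa using Finset.card_le_univ gdᶜ
          exact_mod_cast h3
      _ = 64 * TT * (q : ℝ) ^ (-d) := by ring
  have hE3 : (q * z) ^ 6 * (q * vH) ≤ 2 * CA * (q : ℝ) ^ (-d) := by
    obtain ⟨t, ht⟩ : ∃ t : ℝ, t = Real.sqrt ((q : ℝ) ^ (3 / 2 : ℝ) / M) := ⟨_, rfl⟩
    have ht0' : 0 < t := by rw [ht]; positivity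
    have ht2' : t ^ 2 = (q : ℝ) ^ (3 / 2 : ℝ) / M := by rw [ht]; exact Real.sq_sqrt (by positivity)
    have h1 := hA L1 t hL11 ht0'
    rw [hKN, show 2 * 6 = 12 from rfl] at h1
    have h2 : vH ≤ volume.real {a : X 3 | t ≤ ‖u L1 a‖} := by
      rw [hvH]
      refine measureReal_mono fun v hv => ?_
      have hv' : (q : ℝ) ^ (3 / 2 : ℝ) ≤ M * ‖u L1 v‖ ^ 2 := hv
      change t ≤ ‖u L1 v‖
      rw [ht]
      refine Real.sqrt_le_iff.2 ⟨norm_nonneg _, ?_⟩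
      rw [div_le_iff₀ hM0]
      linarith
    have h3 : t ^ 12 = (q : ℝ) ^ 9 / M ^ 6 := by
      calc t ^ 12 = (t ^ 2) ^ 6 := by ring
        _ = ((q : ℝ) ^ (3 / 2 : ℝ)) ^ 6 / M ^ 6 := by rw [ht2', div_pow]
        _ = (q : ℝ) ^ 9 / M ^ 6 := by
            rw [← Real.rpow_natCast ((q : ℝ) ^ (3 / 2 : ℝ)) 6, ← Real.rpow_mul hq0.le,
              ← Real.rpow_natCast (q : ℝ) 9]
            norm_num
    have h4' : (L1 : ℝ) * t ^ 2 ≤ 2 * (q : ℝ) ^ (D + 2) := by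
      have e1 : (L1 : ℝ) * t ^ 2 = (q * z) * (q : ℝ) ^ (1 / 2 : ℝ) := by
        rw [ht2', hz, show (3 / 2 : ℝ) = 1 + 1 / 2 by norm_num, Real.rpow_add hq0,
          Real.rpow_one]
        ring
      rw [e1]
      calc (q * z) * (q : ℝ) ^ (1 / 2 : ℝ) ≤ (2 * (q : ℝ) ^ (D + 1)) * (q : ℝ) ^ (1 : ℝ) := by
            refine mul_le_mul hy (Real.rpow_le_rpow_of_exponent_le hq1' (by norm_num))
              (Real.rpow_nonneg hq0.le _) (by positivity)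
        _ = 2 * (q : ℝ) ^ (D + 2) := by
            rw [mul_assoc, ← Real.rpow_add hq0]
            congr 2
            ring
    have h5 : ((L1 : ℝ) * t ^ 2) ^ θ ≤ 2 * (q : ℝ) ^ η := by
      rw [hθ]
      exact pow_theta q D η _ hq1' (by linarith) hη0.le (by linarith) (by positivity) h4'
    have h6 : z ^ 6 * (q : ℝ) ^ 9 * vH ≤ CA * (2 * (q : ℝ) ^ η) := by
      calc z ^ 6 * (q : ℝ) ^ 9 * vH = (L1 : ℝ) ^ 6 * t ^ 12 * vH := by
            rw [h3, hz]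
            field_simp
        _ ≤ (L1 : ℝ) ^ 6 * t ^ 12 * volume.real {a : X 3 | t ≤ ‖u L1 a‖} :=
            mul_le_mul_of_nonneg_left h2 (by positivity)
        _ ≤ CA * ((L1 : ℝ) * t ^ 2) ^ θ := h1
        _ ≤ CA * (2 * (q : ℝ) ^ η) := mul_le_mul_of_nonneg_left h5 (by linarith)
    have h7 : (q * z) ^ 6 * (q * vH) ≤ CA * (2 * (q : ℝ) ^ η) / (q : ℝ) ^ 2 := by
      rw [le_div_iff₀ (by positivity)]
      calc (q * z) ^ 6 * (q * vH) * (q : ℝ) ^ 2 = z ^ 6 * (q : ℝ) ^ 9 * vH := by ring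
        _ ≤ _ := h6
    refine h7.trans ?_
    have h8 : (q : ℝ) ^ η / (q : ℝ) ^ 2 ≤ (q : ℝ) ^ (-d) := by
      rw [← Real.rpow_natCast (q : ℝ) 2, ← Real.rpow_sub hq0]
      refine Real.rpow_le_rpow_of_exponent_le hq1' ?_
      push_cast
      linarith
    calc CA * (2 * (q : ℝ) ^ η) / (q : ℝ) ^ 2 = 2 * CA * ((q : ℝ) ^ η / (q : ℝ) ^ 2) := by ring
      _ ≤ 2 * CA * (q : ℝ) ^ (-d) := mul_le_mul_of_nonneg_left h8 (by linarith)
  have hEt : (q * z) ^ 6 * volume.real E ≤ (64 + 64 * TT + 2 * CA) * (q : ℝ) ^ (-d) := by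
    refine (mul_le_mul_of_nonneg_left hEv (by positivity)).trans ?_
    rw [mul_add, mul_add]
    linarith
  -- the numbers
  obtain ⟨r, hr⟩ : ∃ r : ℝ, r = (q : ℝ) ^ (-(2 * δ)) := ⟨_, rfl⟩
  have hr0 : 0 ≤ r := by rw [hr]; positivity
  have hn1 : h * (q : ℝ) ^ (-d) ≤ r := by
    rw [hh, hr, ← Real.rpow_add hq0]
    exact Real.rpow_le_rpow_of_exponent_le hq1' (by linarith)
  have hn2 : (q : ℝ) ^ (-d) * (q : ℝ) ^ η ≤ r := by
    rw [hr, ← Real.rpow_add hq0]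
    exact Real.rpow_le_rpow_of_exponent_le hq1' (by linarith)
  have hn3 : del * (q : ℝ) ^ η ≤ CG * r := by
    rw [hdel, hs24, mul_assoc, hr, ← Real.rpow_add hq0]
    refine mul_le_mul_of_nonneg_left ?_ hCG
    exact Real.rpow_le_rpow_of_exponent_le hq1' (by linarith)
  have hn4 : ((64 + 64 * TT + 2 * CA) + 2 * CR + CG * CR * 2048) * r ≤ (q : ℝ) ^ (-δ) := by
    calc ((64 + 64 * TT + 2 * CA) + 2 * CR + CG * CR * 2048) * r ≤ (q : ℝ) ^ δ * r :=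
          mul_le_mul_of_nonneg_right (hq3 q (by omega)) hr0
      _ = (q : ℝ) ^ (-δ) := by
          rw [hr, ← Real.rpow_add hq0]
          congr 1
          ring
  -- the assembly
  have hz6 : 0 ≤ z ^ 6 := by positivity
  have hfin : (q * z) ^ 6 * ∫ a : X 3, max (M * ‖u (q * L1) a‖ ^ 2 - 1 / 2) 0 ≤
      z ^ 6 * (∫ a : X 3, max (M * ‖u L1 a‖ ^ 2 - 1 / 2) 0) + (q : ℝ) ^ (-δ) := by
    calc (q * z) ^ 6 * ∫ a : X 3, max (M * ‖u (q * L1) a‖ ^ 2 - 1 / 2) 0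
        ≤ (q * z) ^ 6 * ((∫ a in Gd, max (M * ‖u (q * L1) a‖ ^ 2 - 1 / 2) 0) +
          (h * volume.real E + ∫ a in {a : X 3 | h ≤ M * ‖u (q * L1) a‖ ^ 2},
            M * ‖u (q * L1) a‖ ^ 2)) := mul_le_mul_of_nonneg_left hsplit (by positivity)
      _ = z ^ 6 * ((q : ℝ) ^ 6 * ∫ a in Gd, max (M * ‖u (q * L1) a‖ ^ 2 - 1 / 2) 0) +
          (h * ((q * z) ^ 6 * volume.real E) + (q * z) ^ 6 *
            ∫ a in {a : X 3 | h ≤ M * ‖u (q * L1) a‖ ^ 2}, M * ‖u (q * L1) a‖ ^ 2) := by ring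
      _ ≤ z ^ 6 * ((∫ a : X 3, max (M * ‖u L1 a‖ ^ 2 - 1 / 2) 0) +
            del * ∫ a in {a : X 3 | 1 / 4 ≤ M * ‖u L1 a‖ ^ 2}, M * ‖u L1 a‖ ^ 2) +
          (h * ((64 + 64 * TT + 2 * CA) * (q : ℝ) ^ (-d)) +
            CR * (q : ℝ) ^ (-d) * (2 * (q : ℝ) ^ η)) :=
          add_le_add (mul_le_mul_of_nonneg_left hgood2 hz6)
            (add_le_add (mul_le_mul_of_nonneg_left hEt hh0.le) hR2')
      _ = z ^ 6 * (∫ a : X 3, max (M * ‖u L1 a‖ ^ 2 - 1 / 2) 0) +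
          (del * (z ^ 6 * ∫ a in {a : X 3 | 1 / 4 ≤ M * ‖u L1 a‖ ^ 2}, M * ‖u L1 a‖ ^ 2) +
          ((64 + 64 * TT + 2 * CA) * (h * (q : ℝ) ^ (-d)) +
            2 * CR * ((q : ℝ) ^ (-d) * (q : ℝ) ^ η))) := by ring
      _ ≤ z ^ 6 * (∫ a : X 3, max (M * ‖u L1 a‖ ^ 2 - 1 / 2) 0) +
          (del * (CR * 1024 * (2 * (q : ℝ) ^ η)) +
          ((64 + 64 * TT + 2 * CA) * r + 2 * CR * r)) := by
          refine add_le_add le_rfl (add_le_add (mul_le_mul_of_nonneg_left hR1' hdel0)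
            (add_le_add (mul_le_mul_of_nonneg_left hn1 ?_) (mul_le_mul_of_nonneg_left hn2 ?_)))
          · have : (0 : ℝ) ≤ TT := Nat.cast_nonneg _
            linarith
          · linarith
      _ = z ^ 6 * (∫ a : X 3, max (M * ‖u L1 a‖ ^ 2 - 1 / 2) 0) +
          (CR * 2048 * (del * (q : ℝ) ^ η) +
          ((64 + 64 * TT + 2 * CA) * r + 2 * CR * r)) := by ring
      _ ≤ z ^ 6 * (∫ a : X 3, max (M * ‖u L1 a‖ ^ 2 - 1 / 2) 0) +
          (CR * 2048 * (CG * r) + ((64 + 64 * TT + 2 * CA) * r + 2 * CR * r)) := by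
          refine add_le_add le_rfl (add_le_add (mul_le_mul_of_nonneg_left hn3 ?_) le_rfl)
          linarith
      _ = z ^ 6 * (∫ a : X 3, max (M * ‖u L1 a‖ ^ 2 - 1 / 2) 0) +
          ((64 + 64 * TT + 2 * CA) + 2 * CR + CG * CR * 2048) * r := by ring
      _ ≤ _ := add_le_add le_rfl hn4
  rw [hNL, ← hL1]
  unfold SM
  rw [hKN, hqL, ← hz]
  exact hfin

end SE

open SE in
/-- SE -/
theorem pf_SE (hTY : T_TY) (hTP : T_TP) (hBD : T_BD) (hGC : T_GC) (hGO : T_GO) (hTA : T_TA)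
    (hTR : T_TR) (hEX : T_EX) (hMP : T_MP) : T_SE := by
  classical
  obtain ⟨δ, D₀, hδ, h⟩ := step hTY hTP hBD hGC hGO hTA hTR hEX hMP
  refine ⟨δ, D₀, hδ, fun D hD => ?_⟩
  have h1 : ∀ m : ℕ, ∃ q₀ : ℕ, 4 ≤ m → (m : ℝ) ≤ 10 * D → ∀ (q L : ℕ) (M : ℝ), q₀ ≤ q →
      q.Prime → 1 ≤ L → 1 ≤ M → (8 * D + 8 ≤ m ∨ L ≤ q ^ 2) →
      (q : ℝ) ^ (D - 1) ≤ ((q : ℝ) ^ m * L) / (2 * M) →
      ((q : ℝ) ^ m * L) / (2 * M) ≤ (q : ℝ) ^ (D + 1) →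
      SM 3 M (q ^ m * L) ≤ SM 3 M (q ^ (m - 1) * L) + (q : ℝ) ^ (-δ) := by
    intro m
    by_cases hm : 4 ≤ m ∧ (m : ℝ) ≤ 10 * D
    · obtain ⟨q₀, hq₀⟩ := h D hD m hm.1 hm.2
      exact ⟨q₀, fun _ _ => hq₀⟩
    · exact ⟨0, fun h2 h3 => absurd ⟨h2, h3⟩ hm⟩
  choose q₀ hq₀ using h1
  refine ⟨∑ m ∈ Finset.range (⌊10 * D⌋₊ + 1), q₀ m, fun q m L M hq hqp hL hM hm4 hmD hor hlo hhi =>
    hq₀ m hm4 hmD q L M (le_trans ?_ hq) hqp hL hM hor hlo hhi⟩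
  refine Finset.single_le_sum (f := q₀) (fun _ _ => Nat.zero_le _) ?_
  rw [Finset.mem_range]
  exact Nat.lt_succ_of_le (Nat.le_floor hmD)

end Pool.Agent.H7.CLV
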